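import Pool.Agent.Q72.AL.Stm

/-! Job CNT of the project AL (helper58): sums over spaced sets. -/

set_option autoImplicit false

namespace Pool.Agent.Q58.AL

open Pool.Agent.Q72.AL

theorem card_le (L : ℝ) (hL : 0 < L) (Z : Finset ℝ) : ∀ a b : ℝ, a ≤ b →
    (∀ t ∈ Z, a ≤ t ∧ t ≤ b) →
    (∀ t ∈ Z, ∀ t' ∈ Z, t < t' → 1 / L ≤ t' - t) → (Z.card : ℝ) ≤ L * (b - a) + 1 := by
  induction Z using Finset.induction_on_max with
  | empty =>
    intro a b hab _ _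
    have : 0 ≤ L * (b - a) := mul_nonneg hL.le (by linarith)
    simp only [Finset.card_empty, Nat.cast_zero]
    linarith
  | insert m s hm ih =>
    intro a b hab hZ hsp
    have hns : m ∉ s := fun h => lt_irrefl _ (hm m h)
    rw [Finset.card_insert_of_notMem hns]
    have hmab := hZ m (Finset.mem_insert_self _ _)
    rcases s.eq_empty_or_nonempty with rfl | ⟨t₀, ht₀⟩
    · have : 0 ≤ L * (b - a) := mul_nonneg hL.le (by linarith)
      simp only [Finset.card_empty, zero_add, Nat.cast_one]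
      linarith
    · have hle : ∀ t ∈ s, t ≤ m - 1 / L := fun t ht => by
        have := hsp t (Finset.mem_insert_of_mem ht) m (Finset.mem_insert_self _ _) (hm t ht)
        linarith
      have h1 := ih a (m - 1 / L) ((hZ t₀ (Finset.mem_insert_of_mem ht₀)).1.trans (hle t₀ ht₀))
        (fun t ht => ⟨(hZ t (Finset.mem_insert_of_mem ht)).1, hle t ht⟩)
        (fun t ht t' ht' h => hsp t (Finset.mem_insert_of_mem ht) t'
          (Finset.mem_insert_of_mem ht') h)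
      have h2 : L * (m - 1 / L - a) = L * (m - a) - 1 := by
        field_simp
        ring
      rw [h2] at h1
      have h3 : L * (m - a) ≤ L * (b - a) := mul_le_mul_of_nonneg_left (by linarith) hL.le
      push_cast
      linarith

theorem bound_one (u : ℝ) : Real.exp (-(2 * u ^ 2)) * (1 + u ^ 2) ^ 2 ≤ 27 / 8 / (1 + u ^ 2) := by
  have hx : 0 ≤ u ^ 2 := sq_nonneg u
  have h1 : (1 + 2 / 3 * u ^ 2) ≤ Real.exp (2 / 3 * u ^ 2) := by
    have := Real.add_one_le_exp (2 / 3 * u ^ 2)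
    linarith
  have h2 : (1 + 2 / 3 * u ^ 2) ^ 3 ≤ Real.exp (2 * u ^ 2) := by
    have h3 : Real.exp (2 * u ^ 2) = Real.exp (2 / 3 * u ^ 2) ^ 3 := by
      rw [← Real.exp_nat_mul]; congr 1; push_cast; ring
    rw [h3]
    exact pow_le_pow_left₀ (by positivity) h1 3
  have h4 : (8 / 27) * (1 + u ^ 2) ^ 3 ≤ (1 + 2 / 3 * u ^ 2) ^ 3 := by
    have : (2 / 3 * (1 + u ^ 2)) ^ 3 ≤ (1 + 2 / 3 * u ^ 2) ^ 3 :=
      pow_le_pow_left₀ (by positivity) (by linarith) 3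
    nlinarith
  have h5 : (1 + u ^ 2) ^ 3 ≤ 27 / 8 * Real.exp (2 * u ^ 2) := by linarith
  rw [le_div_iff₀ (by positivity), Real.exp_neg]
  have he : 0 < Real.exp (2 * u ^ 2) := Real.exp_pos _
  calc (Real.exp (2 * u ^ 2))⁻¹ * (1 + u ^ 2) ^ 2 * (1 + u ^ 2)
      = (Real.exp (2 * u ^ 2))⁻¹ * (1 + u ^ 2) ^ 3 := by ring
    _ ≤ (Real.exp (2 * u ^ 2))⁻¹ * (27 / 8 * Real.exp (2 * u ^ 2)) :=
        mul_le_mul_of_nonneg_left h5 (inv_pos.2 he).le
    _ = 27 / 8 := by field_simp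

theorem bound_two (u : ℝ) : 1 / (1 + u ^ 2) ≤ 3 / (1 + (⌊u⌋ : ℝ) ^ 2) := by
  rw [div_le_div_iff₀ (by positivity) (by positivity)]
  have h1 := Int.floor_le u
  have h2 := Int.lt_floor_add_one u
  have h3 : (u - ⌊u⌋) ^ 2 ≤ 1 := by nlinarith
  nlinarith [sq_nonneg (u + (u - ⌊u⌋)), sq_nonneg (u - (u - ⌊u⌋))]

theorem summ : Summable (fun k : ℤ => 1 / (1 + (k : ℝ) ^ 2)) := by
  have h1 : Summable (fun k : ℤ => 1 / (k : ℝ) ^ 2) := by
    rw [Real.summable_one_div_int_pow]; norm_num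
  have h2 : Summable (fun k : ℤ => if k = 0 then (1 : ℝ) else 0) := (hasSum_ite_eq 0 (1 : ℝ)).summable
  refine Summable.of_nonneg_of_le (fun k => by positivity) (fun k => ?_) (h1.add h2)
  by_cases hk : k = 0
  · subst hk; simp
  · rw [if_neg hk, add_zero]
    have : 0 < (k : ℝ) ^ 2 := by positivity
    exact one_div_le_one_div_of_le this (by linarith)

theorem cnt : J_CNT := by
  classical
  refine ⟨?_, fun L a b Z hL hab h1 h2 => card_le L hL Z a b hab h1 h2⟩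
  set S : ℝ := ∑' k : ℤ, 1 / (1 + (k : ℝ) ^ 2) with hS
  have hS0 : 0 ≤ S := tsum_nonneg fun k => by positivity
  refine ⟨2 * (81 / 8) * S + 1, by positivity, fun L Z hL hsp T => ?_⟩
  have hb : ∀ t ∈ Z, Real.exp (-(2 * (t - T) ^ 2)) * (1 + (t - T) ^ 2) ^ 2 ≤
      81 / 8 * (1 / (1 + (⌊t - T⌋ : ℝ) ^ 2)) := by
    intro t _
    have h1 := bound_one (t - T)
    have h2 := bound_two (t - T)
    calc _ ≤ _ := h1
      _ = 27 / 8 * (1 / (1 + (t - T) ^ 2)) := by ring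
      _ ≤ 27 / 8 * (3 / (1 + (⌊t - T⌋ : ℝ) ^ 2)) := by linarith
      _ = _ := by ring
  refine (Finset.sum_le_sum hb).trans ?_
  rw [← Finset.sum_fiberwise_of_maps_to (s := Z) (t := Z.image fun t => ⌊t - T⌋)
    (g := fun t => ⌊t - T⌋) (fun t ht => Finset.mem_image_of_mem _ ht)]
  have hf : ∀ k ∈ Z.image fun t => ⌊t - T⌋, ∑ t ∈ Z with ⌊t - T⌋ = k,
      81 / 8 * (1 / (1 + (⌊t - T⌋ : ℝ) ^ 2)) ≤ 2 * L * (81 / 8) * (1 / (1 + (k : ℝ) ^ 2)) := by
    intro k _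
    have h1 : ∑ t ∈ Z with ⌊t - T⌋ = k, 81 / 8 * (1 / (1 + (⌊t - T⌋ : ℝ) ^ 2)) =
        ∑ t ∈ Z with ⌊t - T⌋ = k, 81 / 8 * (1 / (1 + (k : ℝ) ^ 2)) :=
      Finset.sum_congr rfl fun t ht => by rw [(Finset.mem_filter.1 ht).2]
    rw [h1, Finset.sum_const, nsmul_eq_mul]
    have h2 : ((Z.filter fun t => ⌊t - T⌋ = k).card : ℝ) ≤ L * ((T + k + 1) - (T + k)) + 1 := by
      refine card_le L (by linarith) _ _ _ (by linarith) (fun t ht => ?_) (fun t ht t' ht' h => ?_)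
      · have h3 := (Finset.mem_filter.1 ht).2
        rw [Int.floor_eq_iff] at h3
        constructor <;> linarith [h3.1, h3.2]
      · exact hsp t (Finset.mem_filter.1 ht).1 t' (Finset.mem_filter.1 ht').1 h
    have h4 : ((Z.filter fun t => ⌊t - T⌋ = k).card : ℝ) ≤ 2 * L := by linarith
    have h5 : (0 : ℝ) ≤ 81 / 8 * (1 / (1 + (k : ℝ) ^ 2)) := by positivity
    calc _ ≤ 2 * L * (81 / 8 * (1 / (1 + (k : ℝ) ^ 2))) := mul_le_mul_of_nonneg_right h4 h5
      _ = _ := by ring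
  refine (Finset.sum_le_sum hf).trans ?_
  rw [← Finset.mul_sum]
  have h6 : ∑ k ∈ Z.image fun t => ⌊t - T⌋, 1 / (1 + (k : ℝ) ^ 2) ≤ S :=
    summ.sum_le_tsum _ fun k _ => by positivity
  have h7 : 2 * L * (81 / 8) * ∑ k ∈ Z.image fun t => ⌊t - T⌋, 1 / (1 + (k : ℝ) ^ 2) ≤
      2 * L * (81 / 8) * S := mul_le_mul_of_nonneg_left h6 (by positivity)
  nlinarith

end Pool.Agent.Q58.AL
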