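import Pool.Agent.Q72.AL.Stm

/-! Job DDC of the project AL (helper58): continuity of the smoothed sums. -/

set_option autoImplicit false

open Complex MeasureTheory Filter Topology Set

namespace Pool.Agent.Q58.AL

open Pool.Agent.Q72.AL

theorem cf_bound {κ : ℝ} (h1 : 1 ≤ κ) (h2 : κ ≤ 2) {R v : ℝ} (hv : |v| ≤ R) (n : ℕ) :
    |cf κ v n| ≤ Real.exp (R ^ 2 / 4 + 4) * (n : ℝ) ^ (-(3 / 2) : ℝ) := by
  rcases Nat.eq_zero_or_pos n with rfl | hn
  · simp [cf, Real.zero_rpow]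
  have hn' : (0 : ℝ) < n := by exact_mod_cast hn
  have hκ : 0 < κ := by linarith
  set x : ℝ := Real.log n with hx
  have hmu : |(((ArithmeticFunction.moebius n : ℤ) : ℝ))| ≤ 1 := by
    have := ArithmeticFunction.abs_moebius_le_one (n := n)
    exact_mod_cast this
  have hgg : gg κ (v - x) ≤ Real.exp (R ^ 2 / 4 + 4) * (n : ℝ) ^ (-1 : ℝ) := by
    unfold gg
    have hs : 1 ≤ Real.sqrt (Real.pi * κ) := by
      rw [Real.one_le_sqrt]
      nlinarith [Real.pi_gt_three]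
    have hi : (2 * Real.sqrt (Real.pi * κ))⁻¹ ≤ 1 := inv_le_one_of_one_le₀ (by linarith)
    have hv2 : v ^ 2 ≤ R ^ 2 := sq_le_sq' (by linarith [abs_le.1 hv |>.1]) (abs_le.1 hv).2
    have he : -((v - x) ^ 2 / (4 * κ)) ≤ (R ^ 2 / 4 + 4) + (-x) := by
      have a1 : x ^ 2 / 2 - v ^ 2 ≤ (v - x) ^ 2 := by nlinarith [sq_nonneg (x - 2 * v)]
      have a2 : (v - x) ^ 2 / (4 * κ) ≥ x ^ 2 / 16 - v ^ 2 / 4 := by
        rw [ge_iff_le, le_div_iff₀ (by positivity)]
        nlinarith [mul_nonneg (sq_nonneg v) (by linarith : 0 ≤ κ - 1),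
          mul_nonneg (sq_nonneg x) (by linarith : 0 ≤ 2 - κ)]
      nlinarith [sq_nonneg (x / 4 - 2)]
    calc (2 * Real.sqrt (Real.pi * κ))⁻¹ * Real.exp (-((v - x) ^ 2 / (4 * κ)))
        ≤ 1 * Real.exp ((R ^ 2 / 4 + 4) + (-x)) :=
          mul_le_mul hi (Real.exp_le_exp.2 he) (Real.exp_pos _).le zero_le_one
      _ = Real.exp (R ^ 2 / 4 + 4) * (n : ℝ) ^ (-1 : ℝ) := by
          rw [one_mul, Real.exp_add, Real.rpow_neg hn'.le, Real.rpow_one, Real.exp_neg, hx,
            Real.exp_log hn']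
  have hg0 : 0 ≤ gg κ (v - x) := by unfold gg; positivity
  have hr0 : 0 ≤ (n : ℝ) ^ (-(1 / 2) : ℝ) := Real.rpow_nonneg hn'.le _
  unfold cf
  rw [abs_mul, abs_mul, abs_of_nonneg hr0, abs_of_nonneg hg0]
  calc |(((ArithmeticFunction.moebius n : ℤ) : ℝ))| * (n : ℝ) ^ (-(1 / 2) : ℝ) * gg κ (v - x)
      ≤ 1 * (n : ℝ) ^ (-(1 / 2) : ℝ) * (Real.exp (R ^ 2 / 4 + 4) * (n : ℝ) ^ (-1 : ℝ)) := by
        gcongr
    _ = Real.exp (R ^ 2 / 4 + 4) * ((n : ℝ) ^ (-(1 / 2) : ℝ) * (n : ℝ) ^ (-1 : ℝ)) := by ring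
    _ = _ := by
        rw [← Real.rpow_add hn']
        norm_num

theorem cf_cont (κ : ℝ) (n : ℕ) : Continuous (fun v => cf κ v n) := by
  unfold cf gg
  fun_prop

theorem summ32 : Summable (fun n : ℕ => (n : ℝ) ^ (-(3 / 2) : ℝ)) := by
  rw [Real.summable_nat_rpow]; norm_num

theorem ddc : J_DDC := by
  intro κ h1 h2
  constructor
  · rw [continuous_iff_continuousAt]
    intro p
    have hnhd : {q : ℝ × ℝ | |q.1| ≤ |p.1| + 1} ∈ 𝓝 p := by
      have hc : Continuous fun q : ℝ × ℝ => |q.1| := by fun_prop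
      exact hc.continuousAt.eventually (Iic_mem_nhds (by linarith : |p.1| < |p.1| + 1))
    refine ContinuousOn.continuousAt ?_ hnhd
    unfold DD
    refine continuousOn_tsum (u := fun n : ℕ =>
      Real.exp ((|p.1| + 1) ^ 2 / 4 + 4) * (n : ℝ) ^ (-(3 / 2) : ℝ)) (fun n => ?_)
      (summ32.mul_left _) (fun n q hq => ?_)
    · refine Continuous.continuousOn ?_
      have := cf_cont κ n
      have h3 : Continuous fun q : ℝ × ℝ => cf κ q.1 n := this.comp continuous_fst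
      fun_prop
    · rw [norm_mul]
      have h4 : ‖cexp (-((q.2 * Real.log n : ℝ) : ℂ) * I)‖ = 1 := by
        rw [← ofReal_neg]
        exact norm_exp_ofReal_mul_I _
      rw [h4, mul_one, Complex.norm_real, Real.norm_eq_abs]
      exact cf_bound h1 h2 hq n
  · rw [continuous_iff_continuousAt]
    intro p
    have hnhd : {q : ℝ | |q| ≤ |p| + 1} ∈ 𝓝 p := by
      have hc : Continuous fun q : ℝ => |q| := by fun_prop
      exact hc.continuousAt.eventually (Iic_mem_nhds (by linarith : |p| < |p| + 1))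
    refine ContinuousOn.continuousAt ?_ hnhd
    unfold AA
    set C : ℝ := Real.exp ((|p| + 1) ^ 2 / 4 + 4) with hC
    have hC0 : 0 < C := Real.exp_pos _
    refine continuousOn_tsum (u := fun n : ℕ =>
      C * (C * (n : ℝ) ^ (-(3 / 2) : ℝ))) (fun n => ?_)
      ((summ32.mul_left _).mul_left _) (fun n q hq => ?_)
    · exact ((cf_cont κ n).pow 2).continuousOn
    · have h3 := cf_bound h1 h2 hq n
      have h4 : (n : ℝ) ^ (-(3 / 2) : ℝ) ≤ 1 := by
        rcases Nat.eq_zero_or_pos n with rfl | hn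
        · rw [Nat.cast_zero, Real.zero_rpow (by norm_num)]; exact zero_le_one
        · exact Real.rpow_le_one_of_one_le_of_nonpos (by exact_mod_cast hn) (by norm_num)
      have h5 : 0 ≤ (n : ℝ) ^ (-(3 / 2) : ℝ) := Real.rpow_nonneg (Nat.cast_nonneg n) _
      rw [Real.norm_eq_abs, abs_pow, sq]
      have h6 : |cf κ q n| ≤ C := h3.trans (by nlinarith)
      exact mul_le_mul h6 h3 (abs_nonneg _) hC0.le

end Pool.Agent.Q58.AL
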